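import Mathlib

/-! A window of `k` consecutive elements of `A` which contains at most `r` elements of `G`. -/

set_option autoImplicit false

namespace Pool.Agent.J6H13.PR

open Finset

/-- `y` is between two elements of `S` -/
def Btw (S : Finset ℕ) (y : ℕ) : Prop := (∃ s ∈ S, s ≤ y) ∧ ∃ s ∈ S, y ≤ s

instance (S : Finset ℕ) (y : ℕ) : Decidable (Btw S y) := by
  unfold Btw
  infer_instance

/-- initial segments -/
theorem initial (A : Finset ℕ) : ∀ k : ℕ, k ≤ A.card →
    ∃ S ⊆ A, S.card = k ∧ ∀ s ∈ S, ∀ y ∈ A \ S, s < y := by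
  intro k
  induction k with
  | zero => exact fun _ => ⟨∅, empty_subset _, card_empty, by simp⟩
  | succ k ih =>
    intro hk
    obtain ⟨S, hS, hc, hlt⟩ := ih (by omega)
    have hne : (A \ S).Nonempty := by
      rw [← card_pos, card_sdiff_of_subset hS]
      omega
    set m := (A \ S).min' hne with hm
    have hmem : m ∈ A \ S := min'_mem _ _
    have hmS : m ∉ S := (mem_sdiff.1 hmem).2
    refine ⟨insert m S, insert_subset (mem_sdiff.1 hmem).1 hS, ?_, ?_⟩
    · rw [card_insert_of_notMem hmS, hc]
    · intro s hs y hy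
      rw [mem_sdiff, mem_insert, not_or] at hy
      have hyS : y ∈ A \ S := mem_sdiff.2 ⟨hy.1, hy.2.2⟩
      rw [mem_insert] at hs
      rcases hs with h | h
      · rw [h]
        exact lt_of_le_of_ne (min'_le _ _ hyS) (fun h' => hy.2.1 h'.symm)
      · exact hlt s h y hyS

theorem window (k r : ℕ) (hk : 1 ≤ k) : ∀ (w : ℕ) (A G : Finset ℕ), w * k ≤ A.card →
    G.card < w * (r + 1) → ∃ S ⊆ A, S.card = k ∧ (∀ y ∈ A, Btw S y → y ∈ S) ∧
      (G.filter (fun y => Btw S y)).card ≤ r := by
  intro w
  induction w with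
  | zero => intro A G _ h; omega
  | succ w ih =>
    intro A G hA hG
    have h1 : (w + 1) * k = w * k + k := by ring
    have h2 : (w + 1) * (r + 1) = w * (r + 1) + (r + 1) := by ring
    rw [h1] at hA
    rw [h2] at hG
    obtain ⟨S, hS, hc, hlt⟩ := initial A k (by omega)
    by_cases hr : (G.filter (fun y => Btw S y)).card ≤ r
    · refine ⟨S, hS, hc, fun y hy hb => ?_, hr⟩
      by_contra hyS
      obtain ⟨-, s, hs, hys⟩ := hb
      have := hlt s hs y (mem_sdiff.2 ⟨hy, hyS⟩)
      omega
    · push Not at hr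
      obtain ⟨S', hS', hc', hconv, hr'⟩ := ih (A \ S) (G.filter (fun y => ¬ Btw S y))
        (by rw [card_sdiff_of_subset hS]; omega)
        (by
          have := card_filter_add_card_filter_not (s := G) (fun y => Btw S y)
          omega)
      have hne : S.Nonempty := by
        rw [← card_pos]; omega
      have hkey : ∀ y, Btw S' y → ∀ s ∈ S, s < y := by
        intro y hy s hs
        obtain ⟨⟨s', hs', h⟩, -⟩ := hy
        exact (hlt s hs s' (hS' hs')).trans_le h
      refine ⟨S', hS'.trans sdiff_subset, hc', fun y hy hb => ?_, le_trans (card_le_card ?_) hr'⟩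
      · apply hconv y _ hb
        rw [mem_sdiff]
        exact ⟨hy, fun h => lt_irrefl _ (hkey y hb y h)⟩
      · intro y hy
        rw [mem_filter] at hy
        rw [mem_filter, mem_filter]
        refine ⟨⟨hy.1, ?_⟩, hy.2⟩
        rintro ⟨-, s, hs, hys⟩
        have := hkey y hy.2 s hs
        omega

end Pool.Agent.J6H13.PR
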