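import Mathlib
import Pool.Agent.J6H13.PR.Win
import Pool.Agent.J6H13.PR.Few

/-! Every box of classes of shifts contains `k` shifts in different classes which are prime infinitely often, with
at most `r` other primes between them. -/

set_option autoImplicit false

namespace Pool.Agent.J6H13.PR

open Finset

/-- for infinitely many `n ≡ a (mod q)` the numbers `n + q s`, `s ∈ S`, are among `|S| + r` consecutive primes -/
def Occurs (q a r : ℕ) (S : Finset ℕ) : Prop :=
  {n : ℕ | n ≡ a [MOD q] ∧
    ∃ m : ℕ, ∀ s ∈ S, ∃ j < S.card + r, n + q * s = Nat.nth Nat.Prime (m + j)}.Infinite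

theorem occ_of (q r n : ℕ) (S : Finset ℕ) (hS : S.Nonempty) (hp : ∀ s ∈ S, (n + q * s).Prime)
    (hcard : ∀ s ∈ S, ((Ico (n + q * S.min' hS) (n + q * s + 1)).filter Nat.Prime).card ≤ S.card + r) :
    ∃ m : ℕ, ∀ s ∈ S, ∃ j < S.card + r, n + q * s = Nat.nth Nat.Prime (m + j) := by
  refine ⟨Nat.count Nat.Prime (n + q * S.min' hS), fun s hs => ?_⟩
  have hle : n + q * S.min' hS ≤ n + q * s :=
    Nat.add_le_add_left (Nat.mul_le_mul_left _ (min'_le _ _ hs)) _
  have h1 : Nat.count Nat.Prime (n + q * S.min' hS) ≤ Nat.count Nat.Prime (n + q * s) :=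
    Nat.count_monotone _ hle
  refine ⟨Nat.count Nat.Prime (n + q * s) - Nat.count Nat.Prime (n + q * S.min' hS), ?_, ?_⟩
  · have h2 := hcard s hs
    have h3 : Nat.count Nat.Prime (n + q * s + 1) = Nat.count Nat.Prime (n + q * s) + 1 := by
      rw [Nat.count_succ, if_pos (hp s hs)]
    have h4 : Nat.count Nat.Prime (n + q * s + 1) =
        Nat.count Nat.Prime (n + q * S.min' hS) +
          ((Ico (n + q * S.min' hS) (n + q * s + 1)).filter Nat.Prime).card := by
      rw [Nat.count_eq_card_filter_range, Nat.count_eq_card_filter_range, ← card_union_of_disjoint]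
      · congr 1
        rw [← filter_union]
        congr 1
        ext x
        simp only [mem_range, mem_union, mem_Ico]
        omega
      · rw [disjoint_left]
        intro x hx hx'
        rw [mem_filter, mem_range] at hx
        rw [mem_filter, mem_Ico] at hx'
        omega
    omega
  · rw [Nat.add_sub_cancel' h1, Nat.nth_count (hp s hs)]

/-- the number of classes -/
def TT (k r : ℕ) : ℕ := 40 * k * (k / (r + 1) + 2)

open Pool.Agent.TH779.Ord in
theorem fn_bound (L : ℕ) (hL : 1 ≤ L) (m : ℕ) :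
    fn (L : ℝ) m ≤ ((if m = 1 then 1 else 0 : ℕ) : ℝ) - ((L : ℝ) - 1) * ((if m = 1 then 0 else m : ℕ) : ℝ) := by
  unfold fn
  have hL' : (1 : ℝ) ≤ L := by exact_mod_cast hL
  by_cases h1 : m = 1
  · subst h1; simp
  · rw [if_neg h1, if_neg h1]
    rcases Nat.eq_zero_or_pos m with h0 | h0
    · subst h0; simp
    · have h2 : (2 : ℝ) ≤ m := by exact_mod_cast (by omega : 2 ≤ m)
      push_cast
      nlinarith [mul_nonneg (mul_nonneg (by linarith : (0 : ℝ) ≤ L) (by linarith : (0 : ℝ) ≤ (m : ℝ)))
        (by linarith : (0 : ℝ) ≤ (m : ℝ) - 2)]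

theorem box_good (k r : ℕ) (hk : 1 ≤ k) : ∃ K : ℕ, 2 ≤ K ∧ ∀ (q a : ℕ), 1 ≤ q → Nat.Coprime a q →
    ∀ h : ℕ → ℕ, (∀ x < TT k r * K, ∀ y < TT k r * K, h x = h y → x = y) →
      (∀ p : ℕ, p.Prime → ¬ p ∣ q → ∃ b : ℕ, ∀ x < TT k r * K, ¬ p ∣ b + h x) →
      ∃ I : Finset ℕ, (∀ x ∈ I, x < TT k r * K) ∧ I.card = k ∧
        (∀ x ∈ I, ∀ y ∈ I, x / K = y / K → x = y) ∧ Occurs q a r (I.image h) := by
  classical
  set T := TT k r with hT
  obtain ⟨L, hL⟩ : ∃ L : ℕ, L = k / (r + 1) + 2 := ⟨_, rfl⟩
  have hL2 : 2 ≤ L := by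
    rw [hL]
    exact Nat.le_add_left _ _
  have hTL : T = 40 * k * L := by rw [hL]; rfl
  have hT1 : 1 ≤ T := by
    rw [hTL]
    exact Nat.succ_le_of_lt (Nat.mul_pos (by omega) (by omega))
  have hL1 : (1 : ℝ) ≤ L := by exact_mod_cast (by omega : 1 ≤ L)
  obtain ⟨K, hK, hmain⟩ := exact_few T (L : ℝ) hT1 hL1
  refine ⟨K, hK, ?_⟩
  intro q a hq haq h hinj hadm
  obtain ⟨J, hJ, hsum, hinf⟩ := hmain q a hq haq h hinj hadm
  set m : ℕ → ℕ := fun g => (J.filter (fun x => x / K = g)).card with hm
  have hgT : ∀ x ∈ J, x / K < T := fun x hx => (Nat.div_lt_iff_lt_mul (by omega)).2 (hJ x hx)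
  set A' := J.filter (fun x => m (x / K) = 1) with hA'
  set G' := J.filter (fun x => m (x / K) ≠ 1) with hG'
  have hAcard : A'.card = ∑ g ∈ range T, (if m g = 1 then 1 else 0) := by
    rw [card_eq_sum_card_fiberwise (f := fun x => x / K) (t := range T)
      (fun x hx => mem_range.2 (hgT x (mem_filter.1 hx).1))]
    apply sum_congr rfl
    intro g _
    have e : A'.filter (fun x => x / K = g) =
        (J.filter (fun x => x / K = g)).filter (fun _ => m g = 1) := by
      rw [hA', filter_filter, filter_filter]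
      apply filter_congr
      intro x _
      constructor
      · rintro ⟨h1, h2⟩
        rw [h2] at h1
        exact ⟨h2, h1⟩
      · rintro ⟨h1, h2⟩
        rw [h1]
        exact ⟨h2, rfl⟩
    rw [e]
    by_cases hg : m g = 1
    · simp only [hg, if_true, filter_true]
      exact hg
    · simp only [hg, if_false, filter_false, card_empty]
  have hGcard : G'.card = ∑ g ∈ range T, (if m g = 1 then 0 else m g) := by
    rw [card_eq_sum_card_fiberwise (f := fun x => x / K) (t := range T)
      (fun x hx => mem_range.2 (hgT x (mem_filter.1 hx).1))]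
    apply sum_congr rfl
    intro g _
    have e : G'.filter (fun x => x / K = g) =
        (J.filter (fun x => x / K = g)).filter (fun _ => ¬ m g = 1) := by
      rw [hG', filter_filter, filter_filter]
      apply filter_congr
      intro x _
      constructor
      · rintro ⟨h1, h2⟩
        rw [h2] at h1
        exact ⟨h2, h1⟩
      · rintro ⟨h1, h2⟩
        rw [h1]
        exact ⟨h2, rfl⟩
    rw [e]
    by_cases hg : m g = 1
    · simp only [hg, not_true_eq_false, if_true, filter_false, card_empty]
    · simp only [hg, not_false_eq_true, if_false, filter_true]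
      rfl
  have hmany : k + (L - 1) * G'.card ≤ A'.card := by
    have h1 : (T : ℝ) / (40 * L) = k := by
      rw [hTL]
      push_cast
      have : (L : ℝ) ≠ 0 := by positivity
      field_simp
    rw [h1] at hsum
    have h2 : (k : ℝ) ≤ (A'.card : ℝ) - ((L : ℝ) - 1) * (G'.card : ℝ) := by
      refine hsum.trans ((sum_le_sum (fun g _ => fn_bound L (by omega) (m g))).trans ?_)
      rw [sum_sub_distrib, ← mul_sum, hAcard, hGcard]
      push_cast
      exact le_rfl
    have h3 : ((L - 1 : ℕ) : ℝ) = (L : ℝ) - 1 := by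
      rw [Nat.cast_sub (by omega)]
      simp
    have h4 : ((k + (L - 1) * G'.card : ℕ) : ℝ) ≤ (A'.card : ℝ) := by
      push_cast [h3]
      linarith
    exact_mod_cast h4
  have hinjJ : Set.InjOn h (J : Set ℕ) := fun x hx y hy e => hinj x (hJ x hx) y (hJ y hy) e
  have hcA : (A'.image h).card = A'.card :=
    card_image_of_injOn (hinjJ.mono (by exact_mod_cast filter_subset _ _))
  have hcG : (G'.image h).card = G'.card :=
    card_image_of_injOn (hinjJ.mono (by exact_mod_cast filter_subset _ _))
  obtain ⟨S, hSA, hScard, hconv, hSG⟩ := window k r hk (A'.card / k) (A'.image h) (G'.image h)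
    (by rw [hcA]; exact Nat.div_mul_le_self _ _)
    (by
      rw [hcG]
      by_contra hcon
      push Not at hcon
      have h1 : A'.card < (A'.card / k) * k + k := by
        have := Nat.lt_div_mul_add (a := A'.card) (b := k) (by omega)
        exact this
      have h2 : k < (L - 1) * (r + 1) := by
        have h3 : L - 1 = k / (r + 1) + 1 := by rw [hL]; rfl
        rw [h3]
        have := Nat.lt_mul_div_succ k (show 0 < r + 1 by omega)
        linarith
      -- (A/k) k ≥ (L-1) G + 1
      have h3 : (L - 1) * G'.card + 1 ≤ (A'.card / k) * k := by omega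
      have h4 : ((L - 1) * G'.card + 1) * (r + 1) ≤ ((A'.card / k) * k) * (r + 1) :=
        Nat.mul_le_mul_right _ h3
      have h5 : (A'.card / k) * (r + 1) * k ≤ G'.card * k := Nat.mul_le_mul_right _ hcon
      have h6 : ((A'.card / k) * k) * (r + 1) = (A'.card / k) * (r + 1) * k := by ring
      have h7 : ((L - 1) * G'.card + 1) * (r + 1) = ((L - 1) * (r + 1)) * G'.card + (r + 1) := by ring
      have h8 : k * G'.card ≤ ((L - 1) * (r + 1)) * G'.card := Nat.mul_le_mul_right _ h2.le
      have h9 : k * G'.card = G'.card * k := mul_comm _ _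
      omega)
  set I := A'.filter (fun x => h x ∈ S) with hI
  have hIJ : ∀ x ∈ I, x ∈ J := fun x hx => (mem_filter.1 (mem_filter.1 hx).1).1
  have himg : I.image h = S := by
    ext y
    rw [mem_image]
    constructor
    · rintro ⟨x, hx, rfl⟩
      exact (mem_filter.1 hx).2
    · intro hy
      obtain ⟨x, hx, rfl⟩ := mem_image.1 (hSA hy)
      exact ⟨x, mem_filter.2 ⟨hx, hy⟩, rfl⟩
  have hIcard : I.card = k := by
    rw [← hScard, ← himg]
    exact (card_image_of_injOn (hinjJ.mono (fun x hx => hIJ x hx))).symm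
  refine ⟨I, fun x hx => hJ x (hIJ x hx), hIcard, ?_, ?_⟩
  · intro x hx y hy hxy
    have h1 : m (x / K) = 1 := (mem_filter.1 (mem_filter.1 hx).1).2
    rw [hm] at h1
    obtain ⟨z, hz⟩ := card_eq_one.1 h1
    have hx' : x ∈ J.filter (fun u => u / K = x / K) := mem_filter.2 ⟨hIJ x hx, rfl⟩
    have hy' : y ∈ J.filter (fun u => u / K = x / K) := mem_filter.2 ⟨hIJ y hy, hxy.symm⟩
    rw [hz, mem_singleton] at hx' hy'
    rw [hx', hy']
  · rw [himg]
    have hne : S.Nonempty := by
      rw [← card_pos]; omega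
    apply hinf.mono
    rintro n ⟨hn1, hn2, hn3⟩
    refine ⟨hn1, occ_of q r n S hne ?_ ?_⟩
    · intro s hs
      obtain ⟨x, hx, rfl⟩ := mem_image.1 (hSA hs)
      exact hn2 x (mem_filter.1 hx).1
    · intro s hs
      have hsub : (Ico (n + q * S.min' hne) (n + q * s + 1)).filter Nat.Prime ⊆
          (S ∪ (G'.image h).filter (fun y => Btw S y)).image (fun y => n + q * y) := by
        intro p hp
        rw [mem_filter, mem_Ico] at hp
        obtain ⟨⟨hp1, hp2⟩, hp3⟩ := hp
        have hnp : n ≤ p := le_trans (Nat.le_add_right _ _) hp1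
        have hpn : n + (p - n) = p := Nat.add_sub_cancel' hnp
        obtain ⟨x₀, hx₀, hx₀s⟩ := mem_image.1 (hSA hs)
        obtain ⟨x, hx, hxe⟩ := hn3 (p - n) ⟨x₀, hJ x₀ (mem_filter.1 hx₀).1, by
          rw [hx₀s]; omega⟩ (by rw [hpn]; exact hp3)
        rw [mem_image]
        refine ⟨h x, ?_, by omega⟩
        have hlo : S.min' hne ≤ h x := by
          have : q * S.min' hne ≤ q * h x := by omega
          exact Nat.le_of_mul_le_mul_left this hq
        have hhi : h x ≤ s := by
          have : q * h x ≤ q * s := by omega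
          exact Nat.le_of_mul_le_mul_left this hq
        have hb : Btw S (h x) := ⟨⟨_, min'_mem _ _, hlo⟩, s, hs, hhi⟩
        rw [mem_union]
        by_cases hxm : m (x / K) = 1
        · left
          exact hconv _ (mem_image_of_mem h (mem_filter.2 ⟨hx, hxm⟩)) hb
        · right
          rw [mem_filter]
          exact ⟨mem_image_of_mem h (mem_filter.2 ⟨hx, hxm⟩), hb⟩
      calc _ ≤ _ := card_le_card hsub
        _ ≤ _ := card_image_le
        _ ≤ _ := card_union_le _ _
        _ ≤ _ := Nat.add_le_add_left hSG _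

end Pool.Agent.J6H13.PR
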