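import Mathlib
import Pool.Agent.J6H13.PR.Cnt
import Pool.Agent.Helper256.KM.Mertens

/-! Assembly. -/

set_option autoImplicit false

namespace Pool.Agent.J6H13.PR

open Finset

/-- the density of the integers which are divisible by no prime `p ≤ k` with `p ∤ q` -/
noncomputable def dens (k q : ℕ) : ℝ :=
  ∏ p ∈ (range (k + 1)).filter (fun p => p.Prime ∧ ¬ p ∣ q), (1 - 1 / (p : ℝ))

theorem fac_pos {p : ℕ} (hp : p.Prime) : 0 < 1 - 1 / (p : ℝ) := by
  have : (1 : ℝ) < p := by exact_mod_cast hp.one_lt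
  rw [sub_pos, div_lt_one (by linarith)]
  exact this

theorem fac_le_one (p : ℕ) : 1 - 1 / (p : ℝ) ≤ 1 := by
  have : (0 : ℝ) ≤ 1 / (p : ℝ) := by positivity
  linarith

theorem dens_pos (k q : ℕ) : 0 < dens k q :=
  prod_pos (fun _ hp => fac_pos (mem_filter.1 hp).2.1)

theorem sieve (F : Finset ℕ) : (∀ p ∈ F, p.Prime) → ∀ V : Finset ℕ,
    ∃ V' ⊆ V, (∀ p ∈ F, ∃ b : ℕ, ∀ x ∈ V', ¬ p ∣ b + x) ∧
      (∏ p ∈ F, (1 - 1 / (p : ℝ))) * (V.card : ℝ) ≤ (V'.card : ℝ) := by
  classical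
  induction F using Finset.induction_on with
  | empty =>
    intro _ V
    exact ⟨V, Subset.refl _, by simp, by simp⟩
  | insert p F hpF ih =>
    intro hF V
    obtain ⟨V1, hV1, h1, h2⟩ := ih (fun p' hp' => hF p' (mem_insert_of_mem hp')) V
    have hp : p.Prime := hF p (mem_insert_self _ _)
    have : Fact p.Prime := ⟨hp⟩
    have hp0 : (0 : ℝ) < p := by exact_mod_cast hp.pos
    obtain ⟨c, -, hc⟩ := Finset.exists_card_fiber_le_of_card_le_nsmul (s := V1)
      (t := (univ : Finset (ZMod p))) (f := fun x : ℕ => (x : ZMod p)) (b := (V1.card : ℝ) / p)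
      univ_nonempty (by
        rw [card_univ, ZMod.card, nsmul_eq_mul]
        field_simp
        exact le_rfl)
    refine ⟨V1.filter (fun x => ¬ (x : ZMod p) = c), (filter_subset _ _).trans hV1, ?_, ?_⟩
    · intro p' hp'
      rw [mem_insert] at hp'
      rcases hp' with rfl | hp'
      · refine ⟨(-c).val, fun x hx hd => (mem_filter.1 hx).2 ?_⟩
        rw [← ZMod.natCast_eq_zero_iff] at hd
        push_cast at hd
        rw [ZMod.natCast_zmod_val] at hd
        linear_combination hd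
      · obtain ⟨b, hb⟩ := h1 p' hp'
        exact ⟨b, fun x hx => hb x (mem_filter.1 hx).1⟩
    · rw [prod_insert hpF]
      have h3 := card_filter_add_card_filter_not (s := V1) (fun x : ℕ => (x : ZMod p) = c)
      have h4 : ((V1.filter (fun x : ℕ => (x : ZMod p) = c)).card : ℝ) +
          ((V1.filter (fun x : ℕ => ¬ (x : ZMod p) = c)).card : ℝ) = V1.card := by exact_mod_cast h3
      have h5 : (1 - 1 / (p : ℝ)) * (V1.card : ℝ) ≤
          ((V1.filter (fun x : ℕ => ¬ (x : ZMod p) = c)).card : ℝ) := by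
        have h6 : (1 - 1 / (p : ℝ)) * (V1.card : ℝ) = V1.card - V1.card / p := by ring
        rw [h6]
        linarith
      calc (1 - 1 / (p : ℝ)) * (∏ p ∈ F, (1 - 1 / (p : ℝ))) * (V.card : ℝ)
          = (1 - 1 / (p : ℝ)) * ((∏ p ∈ F, (1 - 1 / (p : ℝ))) * (V.card : ℝ)) := by ring
        _ ≤ (1 - 1 / (p : ℝ)) * (V1.card : ℝ) :=
            mul_le_mul_of_nonneg_left h2 (fac_pos hp).le
        _ ≤ _ := h5

/-! ### Mertens -/

theorem fac_ge_exp {p : ℕ} (hp : p.Prime) :
    Real.exp (-(1 / (p : ℝ) + (1 / ((p : ℝ) - 1) - 1 / (p : ℝ)))) ≤ 1 - 1 / (p : ℝ) := by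
  have hp1 : (1 : ℝ) < p := by exact_mod_cast hp.one_lt
  have hp0 : (0 : ℝ) < (p : ℝ) - 1 := by linarith
  have h1 : 1 / (p : ℝ) + (1 / ((p : ℝ) - 1) - 1 / (p : ℝ)) = 1 / ((p : ℝ) - 1) := by ring
  rw [h1, Real.exp_neg]
  have h2 : (1 : ℝ) + 1 / ((p : ℝ) - 1) ≤ Real.exp (1 / ((p : ℝ) - 1)) := by
    have := Real.add_one_le_exp (1 / ((p : ℝ) - 1))
    linarith
  have h3 : (1 : ℝ) + 1 / ((p : ℝ) - 1) = (1 - 1 / (p : ℝ))⁻¹ := by
    field_simp
    ring
  rw [h3] at h2
  exact inv_le_of_inv_le₀ (fac_pos hp) h2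

theorem fac_ge_exp2 {p : ℕ} (hp : p.Prime) : Real.exp (-(2 * (1 / (p : ℝ)))) ≤ 1 - 1 / (p : ℝ) := by
  refine le_trans (Real.exp_le_exp.2 ?_) (fac_ge_exp hp)
  have hp1 : (2 : ℝ) ≤ p := by exact_mod_cast hp.two_le
  have h1 : 1 / ((p : ℝ) - 1) ≤ 2 * (1 / (p : ℝ)) := by
    rw [div_le_iff₀ (by linarith)]
    have : 2 * (1 / (p : ℝ)) * ((p : ℝ) - 1) = 2 * (1 - 1 / (p : ℝ)) := by
      field_simp
    rw [this]
    have : 1 / (p : ℝ) ≤ 1 / 2 := one_div_le_one_div_of_le (by norm_num) hp1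
    linarith
  linarith

theorem mert_ratio : ∃ c : ℝ, 0 < c ∧ ∀ k T : ℕ, 1 ≤ k → T ≤ 120 * k ^ 2 →
    c ≤ ∏ p ∈ (Ioc k T).filter Nat.Prime, (1 - 1 / (p : ℝ)) := by
  obtain ⟨C, hC⟩ := Pool.Agent.Helper256.KM.mertens_inv
  have hC0 : 0 ≤ C := (abs_nonneg _).trans (hC 3 le_rfl)
  refine ⟨Real.exp (-(2 * (480 + Real.log 7 + 2 * C))), Real.exp_pos _, fun k T hk hT => ?_⟩
  have hsum : ∑ p ∈ (Ioc k T).filter Nat.Prime, 1 / (p : ℝ) ≤ 480 + Real.log 7 + 2 * C := by
    have hlog7 : 0 ≤ Real.log 7 := Real.log_nonneg (by norm_num)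
    by_cases hk3 : k < 3
    · have h1 : T ≤ 480 := by
        have : k ^ 2 ≤ 2 ^ 2 := Nat.pow_le_pow_left (by omega) 2
        omega
      have h2 : ∑ p ∈ (Ioc k T).filter Nat.Prime, 1 / (p : ℝ) ≤
          ∑ _p ∈ (Ioc k T).filter Nat.Prime, (1 : ℝ) := by
        apply sum_le_sum
        intro p hp
        have : (1 : ℝ) ≤ p := by exact_mod_cast (mem_filter.1 hp).2.one_lt.le
        rw [div_le_one (by linarith)]
        exact this
      have h3 : (((Ioc k T).filter Nat.Prime).card : ℝ) ≤ 480 := by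
        have := (card_filter_le (Ioc k T) Nat.Prime).trans (by rw [Nat.card_Ioc]; omega : _ ≤ 480)
        exact_mod_cast this
      rw [sum_const, nsmul_eq_mul, mul_one] at h2
      linarith
    · push Not at hk3
      by_cases hkT : k ≤ T
      · have hT3 : 3 ≤ T := hk3.trans hkT
        have h1 := (abs_le.1 (hC k hk3)).1
        have h2 := (abs_le.1 (hC T hT3)).2
        have hsplit : ∑ p ∈ (Icc 1 T).filter Nat.Prime, (1 : ℝ) / p =
            ∑ p ∈ (Icc 1 k).filter Nat.Prime, (1 : ℝ) / p + ∑ p ∈ (Ioc k T).filter Nat.Prime, 1 / (p : ℝ) := by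
          rw [← sum_union]
          · congr 1
            rw [← filter_union]
            congr 1
            ext x
            simp only [mem_union, mem_Icc, mem_Ioc]
            omega
          · rw [disjoint_left]
            intro x hx hx'
            rw [mem_filter, mem_Icc] at hx
            rw [mem_filter, mem_Ioc] at hx'
            omega
        rw [hsplit] at h2
        have hk3' : (3 : ℝ) ≤ k := by exact_mod_cast hk3
        have hlogk1 : (1 : ℝ) < Real.log k := by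
          rw [Real.lt_log_iff_exp_lt (by linarith)]
          linarith [Real.exp_one_lt_d9]
        have hlogT : Real.log T ≤ 7 * Real.log k := by
          have hT' : (T : ℝ) ≤ 120 * (k : ℝ) ^ 2 := by exact_mod_cast hT
          have h3 : (120 : ℝ) ≤ (k : ℝ) ^ 5 := by
            calc (120 : ℝ) ≤ 3 ^ 5 := by norm_num
              _ ≤ _ := by gcongr
          have h4 : (T : ℝ) ≤ (k : ℝ) ^ 7 := by
            calc (T : ℝ) ≤ 120 * (k : ℝ) ^ 2 := hT'
              _ ≤ (k : ℝ) ^ 5 * (k : ℝ) ^ 2 := by gcongr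
              _ = _ := by ring
          calc Real.log T ≤ Real.log ((k : ℝ) ^ 7) :=
                Real.log_le_log (by exact_mod_cast (by omega : 0 < T)) h4
            _ = _ := by rw [Real.log_pow]; norm_num
        have hlogT0 : 0 < Real.log T := Real.log_pos (by exact_mod_cast (by omega : 1 < T))
        have h5 : Real.log (Real.log T) ≤ Real.log 7 + Real.log (Real.log k) := by
          rw [← Real.log_mul (by norm_num) (by linarith)]
          exact Real.log_le_log hlogT0 hlogT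
        linarith
      · have : (Ioc k T) = ∅ := Ioc_eq_empty (by omega)
        rw [this, filter_empty, sum_empty]
        linarith
  calc Real.exp (-(2 * (480 + Real.log 7 + 2 * C)))
      ≤ Real.exp (∑ p ∈ (Ioc k T).filter Nat.Prime, (-(2 * (1 / (p : ℝ))))) := by
        apply Real.exp_le_exp.2
        rw [sum_neg_distrib, ← mul_sum]
        linarith
    _ = ∏ p ∈ (Ioc k T).filter Nat.Prime, Real.exp (-(2 * (1 / (p : ℝ)))) := Real.exp_sum _ _
    _ ≤ _ := prod_le_prod (fun _ _ => (Real.exp_pos _).le)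
        (fun p hp => fac_ge_exp2 (mem_filter.1 hp).2)

theorem tele (N : ℕ) : ∑ p ∈ (Icc 1 N).filter Nat.Prime, (1 / ((p : ℝ) - 1) - 1 / (p : ℝ)) ≤ 1 := by
  have h1 : ∑ p ∈ (Icc 1 N).filter Nat.Prime, (1 / ((p : ℝ) - 1) - 1 / (p : ℝ)) ≤
      ∑ n ∈ range N, (1 / ((n : ℝ) + 1) - 1 / ((n + 1 : ℕ) + 1 : ℝ)) := by
    have h2 : ∑ p ∈ (Icc 1 N).filter Nat.Prime, (1 / ((p : ℝ) - 1) - 1 / (p : ℝ)) ≤
        ∑ p ∈ Icc 2 (N + 1), (1 / ((p : ℝ) - 1) - 1 / (p : ℝ)) := by
      apply sum_le_sum_of_subset_of_nonneg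
      · intro p hp
        rw [mem_filter, mem_Icc] at hp
        rw [mem_Icc]
        have := hp.2.two_le
        omega
      · intro p hp _
        rw [mem_Icc] at hp
        have : (2 : ℝ) ≤ p := by exact_mod_cast hp.1
        rw [sub_nonneg]
        exact one_div_le_one_div_of_le (by linarith) (by linarith)
    refine h2.trans (le_of_eq ?_)
    have h3 : Icc 2 (N + 1) = (range N).image (fun n => n + 2) := by
      ext x
      simp only [mem_Icc, mem_image, mem_range]
      constructor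
      · intro h
        exact ⟨x - 2, by omega, by omega⟩
      · rintro ⟨y, hy, rfl⟩
        omega
    rw [h3, sum_image (fun x _ y _ h => by simpa using h)]
    apply sum_congr rfl
    intro n _
    push_cast
    ring
  refine h1.trans ?_
  have h4 : ∑ n ∈ range N, (1 / ((n : ℝ) + 1) - 1 / ((n + 1 : ℕ) + 1 : ℝ)) =
      1 / ((0 : ℕ) + 1 : ℝ) - 1 / ((N : ℕ) + 1 : ℝ) :=
    Finset.sum_range_sub' (fun n : ℕ => 1 / ((n : ℝ) + 1)) N
  rw [h4]
  have : (0 : ℝ) ≤ 1 / ((N : ℕ) + 1 : ℝ) := by positivity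
  norm_num
  positivity

theorem mert_low : ∃ c : ℝ, 0 < c ∧ ∀ k q : ℕ, 1 ≤ k → c / Real.log (k + 1) ≤ dens k q := by
  obtain ⟨C, hC⟩ := Pool.Agent.Helper256.KM.mertens_inv
  have hC0 : 0 ≤ C := (abs_nonneg _).trans (hC 3 le_rfl)
  have hlog2 : 0 < Real.log 2 := Real.log_pos (by norm_num)
  refine ⟨min (Real.exp (-(C + 1))) (Real.log 2 / 2), lt_min (Real.exp_pos _) (by positivity),
    fun k q hk => ?_⟩
  have hlogk1 : 0 < Real.log ((k : ℝ) + 1) := Real.log_pos (by
    have : (1 : ℝ) ≤ k := by exact_mod_cast hk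
    linarith)
  -- all the primes
  have hall : ∏ p ∈ (Icc 1 k).filter Nat.Prime, (1 - 1 / (p : ℝ)) ≤ dens k q := by
    unfold dens
    rw [← prod_sdiff (s₁ := (range (k + 1)).filter (fun p => p.Prime ∧ ¬ p ∣ q))
      (s₂ := (Icc 1 k).filter Nat.Prime) (by
        intro p hp
        rw [mem_filter, mem_range] at hp
        rw [mem_filter, mem_Icc]
        exact ⟨⟨hp.2.1.one_lt.le, by omega⟩, hp.2.1⟩)]
    apply mul_le_of_le_one_left (dens_pos k q).le
    exact prod_le_one (fun p hp => (fac_pos (mem_filter.1 (mem_sdiff.1 hp).1).2).le)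
      (fun p _ => fac_le_one p)
  refine le_trans ?_ hall
  by_cases hk3 : k < 3
  · have h1 : (1 : ℝ) / 2 ≤ ∏ p ∈ (Icc 1 k).filter Nat.Prime, (1 - 1 / (p : ℝ)) := by
      have h2 : ∏ p ∈ (Icc 1 2).filter Nat.Prime, (1 - 1 / (p : ℝ)) ≤
          ∏ p ∈ (Icc 1 k).filter Nat.Prime, (1 - 1 / (p : ℝ)) := by
        rw [← prod_sdiff (s₁ := (Icc 1 k).filter Nat.Prime) (s₂ := (Icc 1 2).filter Nat.Prime) (by
            intro p hp
            rw [mem_filter, mem_Icc] at hp ⊢
            exact ⟨⟨hp.1.1, by omega⟩, hp.2⟩)]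
        apply mul_le_of_le_one_left
        · exact (prod_pos (fun p hp => fac_pos (mem_filter.1 hp).2)).le
        · exact prod_le_one (fun p hp => (fac_pos (mem_filter.1 (mem_sdiff.1 hp).1).2).le)
            (fun p _ => fac_le_one p)
      refine le_trans (le_of_eq ?_) h2
      have h3 : (Icc 1 2).filter Nat.Prime = {2} := by decide
      rw [h3, prod_singleton]
      norm_num
    refine le_trans ?_ h1
    rw [div_le_iff₀ hlogk1]
    have h4 : Real.log 2 ≤ Real.log ((k : ℝ) + 1) := Real.log_le_log (by norm_num) (by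
      have : (1 : ℝ) ≤ k := by exact_mod_cast hk
      linarith)
    have := min_le_right (Real.exp (-(C + 1))) (Real.log 2 / 2)
    linarith
  · push Not at hk3
    have h1 := (abs_le.1 (hC k hk3)).2
    have hk3' : (3 : ℝ) ≤ k := by exact_mod_cast hk3
    have hlogk : 0 < Real.log k := Real.log_pos (by linarith)
    calc min (Real.exp (-(C + 1))) (Real.log 2 / 2) / Real.log ((k : ℝ) + 1)
        ≤ Real.exp (-(C + 1)) / Real.log k := by
          apply div_le_div₀ (Real.exp_pos _).le (min_le_left _ _) hlogk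
          exact Real.log_le_log (by linarith) (by linarith)
      _ = Real.exp (-(Real.log (Real.log k) + C + 1)) := by
          rw [show -(Real.log (Real.log k) + C + 1) = -(C + 1) - Real.log (Real.log k) by ring,
            Real.exp_sub, Real.exp_log hlogk]
      _ ≤ Real.exp (∑ p ∈ (Icc 1 k).filter Nat.Prime,
            (-(1 / (p : ℝ) + (1 / ((p : ℝ) - 1) - 1 / (p : ℝ))))) := by
          apply Real.exp_le_exp.2
          rw [sum_neg_distrib, sum_add_distrib]
          have := tele k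
          linarith
      _ = ∏ p ∈ (Icc 1 k).filter Nat.Prime,
            Real.exp (-(1 / (p : ℝ) + (1 / ((p : ℝ) - 1) - 1 / (p : ℝ)))) := Real.exp_sum _ _
      _ ≤ _ := prod_le_prod (fun _ _ => (Real.exp_pos _).le)
          (fun p hp => fac_ge_exp (mem_filter.1 hp).2)

theorem dens_ratio : ∃ c : ℝ, 0 < c ∧ ∀ k T q : ℕ, 1 ≤ k → k ≤ T → T ≤ 120 * k ^ 2 →
    c * dens k q ≤ dens T q := by
  obtain ⟨c, hc, h⟩ := mert_ratio
  refine ⟨c, hc, fun k T q hk hkT hT => ?_⟩
  have h1 := h k T hk hT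
  have h2 : dens T q = (∏ p ∈ (Ioc k T).filter (fun p => p.Prime ∧ ¬ p ∣ q), (1 - 1 / (p : ℝ))) *
      dens k q := by
    unfold dens
    rw [← prod_union]
    · congr 1
      rw [← filter_union]
      congr 1
      ext x
      simp only [mem_union, mem_range, mem_Ioc]
      omega
    · rw [disjoint_left]
      intro x hx hx'
      rw [mem_filter, mem_Ioc] at hx
      rw [mem_filter, mem_range] at hx'
      omega
  rw [h2]
  apply mul_le_mul_of_nonneg_right _ (dens_pos k q).le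
  refine h1.trans ?_
  rw [← prod_sdiff (s₁ := (Ioc k T).filter (fun p => p.Prime ∧ ¬ p ∣ q))
    (s₂ := (Ioc k T).filter Nat.Prime) (by
      intro p hp
      rw [mem_filter] at hp ⊢
      exact ⟨hp.1, hp.2.1⟩)]
  apply mul_le_of_le_one_left
  · exact (prod_pos (fun p hp => fac_pos (mem_filter.1 hp).2.1)).le
  · exact prod_le_one (fun p hp => (fac_pos (mem_filter.1 (mem_sdiff.1 hp).1).2).le)
      (fun p _ => fac_le_one p)

/-! ### lower bound -/

open Classical in
theorem lower : ∃ c : ℝ, 0 < c ∧ ∀ k r : ℕ, 1 ≤ k → r < k → ∃ N : ℕ, ∀ q a : ℕ, 1 ≤ q →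
    Nat.Coprime a q → ∀ V : Finset ℕ, N ≤ V.card →
      (c * (((r : ℝ) + 1) / k) * dens k q) ^ k * ((V.card).choose k : ℝ) ≤
        (((V.powersetCard k).filter (fun S => Occurs q a r S)).card : ℝ) := by
  obtain ⟨c₁, hc₁, hratio⟩ := dens_ratio
  refine ⟨c₁ / (240 * Real.exp 1), by positivity, fun k r hk hr => ?_⟩
  obtain ⟨N, hN1, hN⟩ := count_good k r hk
  set T := TT k r with hT
  have hkT : k ≤ T := by
    rw [hT]
    unfold TT
    calc k = 1 * k * 1 := by ring
      _ ≤ 40 * k * (k / (r + 1) + 2) := by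
        gcongr
        · norm_num
        · exact Nat.succ_le_of_lt (Nat.succ_pos _)
  -- T (r + 1) ≤ 120 k ^ 2
  have hTr : T * (r + 1) ≤ 120 * k ^ 2 := by
    have h1 : k / (r + 1) * (r + 1) ≤ k := Nat.div_mul_le_self _ _
    have h2 : (k / (r + 1) + 2) * (r + 1) ≤ 3 * k := by
      rw [Nat.add_mul]
      omega
    calc T * (r + 1) = 40 * k * ((k / (r + 1) + 2) * (r + 1)) := by
          rw [hT]; unfold TT; ring
      _ ≤ 40 * k * (3 * k) := Nat.mul_le_mul_left _ h2
      _ = _ := by ring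
  have hT2 : T ≤ 120 * k ^ 2 := (Nat.le_mul_of_pos_right _ (by omega)).trans hTr
  -- number needed
  obtain ⟨M, hM⟩ := exists_nat_ge ((N : ℝ) / ∏ p ∈ (Icc 1 T).filter Nat.Prime, (1 - 1 / (p : ℝ)))
  refine ⟨M, fun q a hq haq V hV => ?_⟩
  set F := (range (T + 1)).filter (fun p => p.Prime ∧ ¬ p ∣ q) with hF
  obtain ⟨V', hV'V, hV'1, hV'2⟩ := sieve F (fun p hp => (mem_filter.1 hp).2.1) V
  have hθ : ∏ p ∈ F, (1 - 1 / (p : ℝ)) = dens T q := rfl
  rw [hθ] at hV'2
  have hall : ∏ p ∈ (Icc 1 T).filter Nat.Prime, (1 - 1 / (p : ℝ)) ≤ dens T q := by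
    unfold dens
    rw [← prod_sdiff (s₁ := (range (T + 1)).filter (fun p => p.Prime ∧ ¬ p ∣ q))
      (s₂ := (Icc 1 T).filter Nat.Prime) (by
        intro p hp
        rw [mem_filter, mem_range] at hp
        rw [mem_filter, mem_Icc]
        exact ⟨⟨hp.2.1.one_lt.le, by omega⟩, hp.2.1⟩)]
    apply mul_le_of_le_one_left (dens_pos T q).le
    exact prod_le_one (fun p hp => (fac_pos (mem_filter.1 (mem_sdiff.1 hp).1).2).le)
      (fun p _ => fac_le_one p)
  have hallpos : 0 < ∏ p ∈ (Icc 1 T).filter Nat.Prime, (1 - 1 / (p : ℝ)) :=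
    prod_pos (fun p hp => fac_pos (mem_filter.1 hp).2)
  have hNV' : N ≤ V'.card := by
    have h1 : (N : ℝ) ≤ V'.card := by
      rw [div_le_iff₀ hallpos] at hM
      have h2 : (M : ℝ) ≤ V.card := by exact_mod_cast hV
      calc (N : ℝ) ≤ M * ∏ p ∈ (Icc 1 T).filter Nat.Prime, (1 - 1 / (p : ℝ)) := hM
        _ ≤ V.card * dens T q := by gcongr
        _ = dens T q * V.card := mul_comm _ _
        _ ≤ _ := hV'2
    exact_mod_cast h1
  have hcount := hN q a hq haq V' hNV' (by
    intro p hp hpT hpq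
    exact hV'1 p (mem_filter.2 ⟨mem_range.2 (by omega), hp, hpq⟩))
  set G := (((V.powersetCard k).filter (fun S => Occurs q a r S)).card : ℝ) with hG
  have hG' : (((V'.powersetCard k).filter (fun S => Occurs q a r S)).card : ℝ) ≤ G := by
    rw [hG]
    have := card_le_card (filter_subset_filter (fun S => Occurs q a r S)
      (powersetCard_mono (n := k) hV'V))
    exact_mod_cast this
  have hG0 : 0 ≤ G := Nat.cast_nonneg _
  -- n'^k ≤ 2 T^k G
  have hk0 : (0 : ℝ) < k.factorial := by exact_mod_cast Nat.factorial_pos k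
  have h1 : (V'.card : ℝ) ^ k ≤ 2 * (T : ℝ) ^ k * G := by
    have h2 : (T.choose k : ℝ) * (k.factorial : ℝ) ≤ (T : ℝ) ^ k := by
      have := Nat.choose_le_pow_div (α := ℝ) k T
      rwa [le_div_iff₀ hk0] at this
    calc (V'.card : ℝ) ^ k ≤ 2 * (T.choose k : ℝ) * (k.factorial : ℝ) *
          (((V'.powersetCard k).filter (fun S => Occurs q a r S)).card : ℝ) := hcount
      _ = 2 * ((T.choose k : ℝ) * (k.factorial : ℝ)) *
          (((V'.powersetCard k).filter (fun S => Occurs q a r S)).card : ℝ) := by ring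
      _ ≤ 2 * (T : ℝ) ^ k * G := by gcongr
  have h3 : (dens T q * (V.card : ℝ)) ^ k ≤ 2 * (T : ℝ) ^ k * G :=
    (pow_le_pow_left₀ (mul_nonneg (dens_pos T q).le (Nat.cast_nonneg _)) hV'2 k).trans h1
  have h4 : (V.card.choose k : ℝ) * (k.factorial : ℝ) ≤ (V.card : ℝ) ^ k := by
    have := Nat.choose_le_pow_div (α := ℝ) k V.card
    rwa [le_div_iff₀ hk0] at this
  have hkpos : (0 : ℝ) < k := by exact_mod_cast hk
  have h5 : ((k : ℝ) / Real.exp 1) ^ k ≤ k.factorial := by
    have h6 := Real.pow_div_factorial_le_exp (k : ℝ) hkpos.le k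
    rw [div_pow, ← Real.exp_nat_mul, mul_one, div_le_iff₀ (Real.exp_pos _)]
    rw [div_le_iff₀ hk0] at h6
    linarith
  have hTpos : (0 : ℝ) < T := by exact_mod_cast (by omega : 0 < T)
  have h7 : (dens T q) ^ k * (((k : ℝ) / Real.exp 1) ^ k * (V.card.choose k : ℝ)) ≤
      2 ^ k * (T : ℝ) ^ k * G := by
    calc (dens T q) ^ k * (((k : ℝ) / Real.exp 1) ^ k * (V.card.choose k : ℝ))
        ≤ (dens T q) ^ k * ((k.factorial : ℝ) * (V.card.choose k : ℝ)) := by
          have := (dens_pos T q).le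
          gcongr
      _ = (dens T q) ^ k * ((V.card.choose k : ℝ) * (k.factorial : ℝ)) := by ring
      _ ≤ (dens T q) ^ k * (V.card : ℝ) ^ k := by
          have := (dens_pos T q).le
          gcongr
      _ = (dens T q * (V.card : ℝ)) ^ k := by rw [mul_pow]
      _ ≤ 2 * (T : ℝ) ^ k * G := h3
      _ ≤ 2 ^ k * (T : ℝ) ^ k * G := by
          gcongr
          calc (2 : ℝ) = 2 ^ 1 := by norm_num
            _ ≤ 2 ^ k := pow_le_pow_right₀ (by norm_num) hk
  -- the base
  have h8 : c₁ / (240 * Real.exp 1) * (((r : ℝ) + 1) / k) * dens k q ≤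
      dens T q * ((k : ℝ) / Real.exp 1) / (2 * T) := by
    have h9 := hratio k T q hk hkT hT2
    have h10 : (T : ℝ) * (r + 1) ≤ 120 * (k : ℝ) ^ 2 := by exact_mod_cast hTr
    rw [le_div_iff₀ (by positivity)]
    calc c₁ / (240 * Real.exp 1) * (((r : ℝ) + 1) / k) * dens k q * (2 * T)
        = (c₁ * dens k q) * (((T : ℝ) * (r + 1)) / (120 * k * Real.exp 1)) := by
          field_simp
          ring
      _ ≤ (c₁ * dens k q) * ((120 * (k : ℝ) ^ 2) / (120 * k * Real.exp 1)) := by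
          have := (dens_pos k q).le
          gcongr
      _ = (c₁ * dens k q) * ((k : ℝ) / Real.exp 1) := by
          field_simp
      _ ≤ _ := by gcongr
  have h11 : 0 ≤ c₁ / (240 * Real.exp 1) * (((r : ℝ) + 1) / k) * dens k q := by
    have := (dens_pos k q).le
    positivity
  calc (c₁ / (240 * Real.exp 1) * (((r : ℝ) + 1) / k) * dens k q) ^ k * ((V.card).choose k : ℝ)
      ≤ (dens T q * ((k : ℝ) / Real.exp 1) / (2 * T)) ^ k * ((V.card).choose k : ℝ) := by
        gcongr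
    _ = ((dens T q) ^ k * (((k : ℝ) / Real.exp 1) ^ k * (V.card.choose k : ℝ))) / (2 * T) ^ k := by
        rw [div_pow, mul_pow]
        ring
    _ ≤ (2 ^ k * (T : ℝ) ^ k * G) / (2 * T) ^ k := by gcongr
    _ = G := by
        rw [mul_pow]
        field_simp

end Pool.Agent.J6H13.PR
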