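import Mathlib
import Pool.Agent.J6H13.PR.Fin

/-! The trivial upper bound: sets which occur miss a residue class modulo each prime which does not divide `q`. -/

set_option autoImplicit false

namespace Pool.Agent.J6H13.PR

open Finset Filter

/-- the primes `p ≤ k` with `p ∤ q` -/
def PF (k q : ℕ) : Finset ℕ := (range (k + 1)).filter (fun p => p.Prime ∧ ¬ p ∣ q)

theorem pf_prime {k q p : ℕ} (hp : p ∈ PF k q) : p.Prime := (mem_filter.1 hp).2.1

/-- their product -/
def QQ (k q : ℕ) : ℕ := ∏ p ∈ PF k q, p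

theorem qq_pos (k q : ℕ) : 0 < QQ k q := prod_pos (fun _ hp => (pf_prime hp).pos)

theorem qq_le (k q : ℕ) : QQ k q ≤ 4 ^ k := by
  refine le_trans ?_ (primorial_le_four_pow k)
  unfold QQ primorial
  apply prod_le_prod_of_subset_of_one_le'
  · intro p hp
    have := mem_filter.1 hp
    exact mem_filter.2 ⟨this.1, this.2.1⟩
  · intro p hp _
    exact (mem_filter.1 hp).2.one_lt.le

theorem totient_prod (F : Finset ℕ) (hF : ∀ p ∈ F, p.Prime) :
    (Nat.totient (∏ p ∈ F, p) : ℝ) = (∏ p ∈ F, (1 - 1 / (p : ℝ))) * ((∏ p ∈ F, p : ℕ) : ℝ) := by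
  induction F using Finset.induction_on with
  | empty => simp
  | insert p F hpF ih =>
    have hp : p.Prime := hF p (mem_insert_self _ _)
    have ih := ih (fun p' hp' => hF p' (mem_insert_of_mem hp'))
    have hcop : Nat.Coprime p (∏ p ∈ F, p) := by
      apply Nat.Coprime.prod_right
      intro p' hp'
      exact (Nat.coprime_primes hp (hF p' (mem_insert_of_mem hp'))).2
        (fun h => hpF (h ▸ hp'))
    rw [prod_insert hpF, prod_insert hpF, Nat.totient_mul hcop, Nat.totient_prime hp]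
    push_cast
    rw [Nat.cast_sub hp.one_lt.le]
    rw [ih]
    have hp0 : (p : ℝ) ≠ 0 := by exact_mod_cast hp.ne_zero
    push_cast
    field_simp

theorem occ_cop {k q a r : ℕ} {S : Finset ℕ} (hS : Occurs q a r S) :
    ∃ c < QQ k q, ∀ s ∈ S, Nat.Coprime (QQ k q) (s + c) := by
  obtain ⟨n, ⟨-, m, hm⟩, hn⟩ := hS.exists_gt (QQ k q)
  have : NeZero (QQ k q) := ⟨(qq_pos k q).ne'⟩
  have hqQ : Nat.Coprime q (QQ k q) := by
    apply Nat.Coprime.prod_right
    intro p hp
    exact ((Nat.Prime.coprime_iff_not_dvd (pf_prime hp)).2 (mem_filter.1 hp).2.2).symm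
  refine ⟨((n : ZMod (QQ k q)) * (q : ZMod (QQ k q))⁻¹).val, ZMod.val_lt _, fun s hs => ?_⟩
  obtain ⟨j, -, hj⟩ := hm s hs
  have hprime : (n + q * s).Prime := by
    rw [hj]
    exact Nat.prime_nth_prime _
  set c := ((n : ZMod (QQ k q)) * (q : ZMod (QQ k q))⁻¹).val with hc
  have h1 : ((q * (s + c) : ℕ) : ZMod (QQ k q)) = ((n + q * s : ℕ) : ZMod (QQ k q)) := by
    push_cast
    rw [hc, ZMod.natCast_zmod_val, mul_add]
    have h2 := ZMod.coe_mul_inv_eq_one q hqQ
    linear_combination (n : ZMod (QQ k q)) * h2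
  rw [ZMod.natCast_eq_natCast_iff] at h1
  have h3 : Nat.Coprime (n + q * s) (QQ k q) := by
    rw [Nat.Prime.coprime_iff_not_dvd hprime]
    intro hd
    have := Nat.le_of_dvd (qq_pos k q) hd
    omega
  have h4 : Nat.Coprime (q * (s + c)) (QQ k q) := by
    unfold Nat.Coprime at h3 ⊢
    rw [← h3]
    exact h1.gcd_eq
  exact (Nat.Coprime.coprime_mul_left h4).symm

open Classical in
theorem upper (k q : ℕ) (hk : 1 ≤ k) : ∀ᶠ N : ℕ in atTop,
    ((((range N).powersetCard k).filter (fun S => ∃ a r, Occurs q a r S)).card : ℝ) ≤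
      (16 * dens k q) ^ k * (N.choose k : ℝ) := by
  filter_upwards [eventually_ge_atTop (QQ k q), eventually_ge_atTop (2 * k)] with N hN1 hN2
  set Q := QQ k q with hQ
  have hQpos : 0 < Q := qq_pos k q
  have hQR : (0 : ℝ) < Q := by exact_mod_cast hQpos
  set W : ℕ → Finset ℕ := fun c => (range N).filter (fun x => Nat.Coprime Q (x + c)) with hW
  have hWcard : ∀ c, ((W c).card : ℝ) ≤ 2 * dens k q * N := by
    intro c
    have h1 : (W c).card ≤ ((Ico c (c + N)).filter (Nat.Coprime Q)).card := by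
      apply card_le_card_of_injOn (fun x => x + c)
      · intro x hx
        rw [mem_coe, hW, mem_filter, mem_range] at hx
        rw [mem_coe, mem_filter, mem_Ico]
        show (c ≤ x + c ∧ x + c < c + N) ∧ Nat.Coprime Q (x + c)
        exact ⟨⟨by omega, by omega⟩, hx.2⟩
      · intro x _ y _ h
        simp only at h
        omega
    have h2 := h1.trans (Nat.Ico_filter_coprime_le c N hQpos.ne')
    have h3 : ((W c).card : ℝ) ≤ (Nat.totient Q : ℝ) * ((N / Q : ℕ) + 1) := by exact_mod_cast h2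
    have h4 : ((N / Q : ℕ) : ℝ) ≤ N / Q := Nat.cast_div_le
    have h5 : (1 : ℝ) ≤ N / Q := by
      rw [le_div_iff₀ hQR, one_mul]
      exact_mod_cast hN1
    have h6 : (Nat.totient Q : ℝ) = dens k q * Q := totient_prod (PF k q) (fun p hp => pf_prime hp)
    have hd := (dens_pos k q).le
    calc ((W c).card : ℝ) ≤ (Nat.totient Q : ℝ) * ((N / Q : ℕ) + 1) := h3
      _ ≤ (dens k q * Q) * (N / Q + N / Q) := by
          rw [h6]
          gcongr
      _ = _ := by field_simp; ring
  have hsub : ((range N).powersetCard k).filter (fun S => ∃ a r, Occurs q a r S) ⊆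
      (range Q).biUnion (fun c => (W c).powersetCard k) := by
    intro S hS
    rw [mem_filter, mem_powersetCard] at hS
    obtain ⟨⟨h1, h2⟩, a, r, h3⟩ := hS
    obtain ⟨c, hc, hcop⟩ := occ_cop (k := k) h3
    rw [mem_biUnion]
    refine ⟨c, mem_range.2 hc, mem_powersetCard.2 ⟨fun s hs => ?_, h2⟩⟩
    exact mem_filter.2 ⟨h1 hs, hcop s hs⟩
  have hk0 : (0 : ℝ) < k.factorial := by exact_mod_cast Nat.factorial_pos k
  have h1 : ((((range N).powersetCard k).filter (fun S => ∃ a r, Occurs q a r S)).card : ℝ) ≤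
      ∑ c ∈ range Q, (((W c).card.choose k : ℕ) : ℝ) := by
    have := (card_le_card hsub).trans card_biUnion_le
    simp only [card_powersetCard] at this
    exact_mod_cast this
  have hd := (dens_pos k q).le
  have h2 : ∑ c ∈ range Q, (((W c).card.choose k : ℕ) : ℝ) ≤
      Q * ((2 * dens k q * N) ^ k / k.factorial) := by
    calc ∑ c ∈ range Q, (((W c).card.choose k : ℕ) : ℝ)
        ≤ ∑ _c ∈ range Q, ((2 * dens k q * N) ^ k / k.factorial) := by
          apply sum_le_sum
          intro c _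
          refine (Nat.choose_le_pow_div k _).trans ?_
          have := hWcard c
          gcongr
      _ = _ := by rw [sum_const, card_range, nsmul_eq_mul]
  have h3 : (Q : ℝ) ≤ 4 ^ k := by exact_mod_cast qq_le k q
  have h4 : (N : ℝ) ^ k / k.factorial ≤ 2 ^ k * (N.choose k : ℝ) := by
    have h5 := Nat.pow_sub_le_descFactorial N k
    have h6 : N ≤ 2 * (N + 1 - k) := by omega
    have h7 : (N : ℝ) ≤ 2 * ((N + 1 - k : ℕ) : ℝ) := by exact_mod_cast h6
    have h8 : ((N + 1 - k : ℕ) : ℝ) ^ k ≤ (k.factorial : ℝ) * (N.choose k : ℝ) := by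
      rw [Nat.descFactorial_eq_factorial_mul_choose] at h5
      exact_mod_cast h5
    rw [div_le_iff₀ hk0]
    calc (N : ℝ) ^ k ≤ (2 * ((N + 1 - k : ℕ) : ℝ)) ^ k := by gcongr
      _ = 2 ^ k * ((N + 1 - k : ℕ) : ℝ) ^ k := mul_pow _ _ _
      _ ≤ 2 ^ k * ((k.factorial : ℝ) * (N.choose k : ℝ)) := by gcongr
      _ = _ := by ring
  calc ((((range N).powersetCard k).filter (fun S => ∃ a r, Occurs q a r S)).card : ℝ)
      ≤ Q * ((2 * dens k q * N) ^ k / k.factorial) := h1.trans h2
    _ ≤ 4 ^ k * ((2 * dens k q * N) ^ k / k.factorial) := by gcongr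
    _ = 4 ^ k * (2 ^ k * (dens k q) ^ k) * ((N : ℝ) ^ k / k.factorial) := by
        rw [mul_pow, mul_pow]
        ring
    _ ≤ 4 ^ k * (2 ^ k * (dens k q) ^ k) * (2 ^ k * (N.choose k : ℝ)) := by gcongr
    _ = (16 * dens k q) ^ k * (N.choose k : ℝ) := by
        rw [mul_pow, show (16 : ℝ) = 4 * 2 * 2 by norm_num, mul_pow, mul_pow]
        ring

end Pool.Agent.J6H13.PR
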